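import Pool.Agent.H343.AN.StE

set_option autoImplicit false
set_option linter.unusedSectionVars false

/-! # MP_aa4716_al : annuli at large scales and the geometric theorem (E8, E9)
(project AN of helper343, written by helper97) -/

namespace Pool.Agent.H97.AN

open Pool.Agent.TH68 Pool.Agent.Helper97.Hyp Pool.Agent.H343.AN

/-- bounded sets -/
lemma col_bdd {X : Type} [PseudoMetricSpace X] {P : Set X} {s D : ℝ} (hD : 0 ≤ D)
    (h : ∀ x ∈ P, ∀ y ∈ P, dist x y ≤ D) : Col P 2 s D := by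
  refine ⟨fun _ => 0, fun x y hxy => ?_⟩
  have key : x = y ∨ (x ∈ P ∧ y ∈ P) := by
    induction hxy with
    | refl => exact Or.inl rfl
    | tail h1 h2 ih =>
      right
      rcases ih with h3 | h3
      · rw [h3]
        exact ⟨h2.1, h2.2.1⟩
      · exact ⟨h3.1, h2.2.1⟩
  rcases key with h1 | h1
  · rw [h1, dist_self]
    exact hD
  · exact h x h1.1 y h1.2

/-- **E8.** -/
theorem e8 : ToolA → S_e2 → S_e4 → S_e5 → S_e7 → S_c7 → S_e8 := by
  intro hA _ h4 h5 h7 hc7 Γ _ W 𝒜 _ Y R W' hq hρ σ s hcol hσ hs1 hs2 hs3 a T hT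
  have hθ1 : 1 ≤ Y.θ := Y.hδ.trans Y.hθ
  have hs0 : 10 ^ 4 ≤ s := by nlinarith
  have hρs : 10 ^ 6 * s ≤ R.ρ := by
    rw [le_div_iff₀ (by norm_num)] at hs3
    linarith
  by_cases ha : a < 2 * T + 3 * R.ρ + 1
  · refine col_bdd (by linarith) fun x hx y hy => ?_
    have h1 := dist_triangle_left x y (pt W' 1)
    have h2 := hx.2
    have h3 := hy.2
    linarith
  · push Not at ha
    have hb0 : 0 ≤ a - 2 * T - 3 * R.ρ := by linarith
    set b : ℕ := ⌊a - 2 * T - 3 * R.ρ⌋₊ with hb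
    have hb1 : (b : ℝ) ≤ a - 2 * T - 3 * R.ρ := Nat.floor_le hb0
    have hb2 : a - 2 * T - 3 * R.ρ < (b : ℝ) + 1 := Nat.lt_floor_add_one _
    -- the range of the cutting map
    have hC1 : Col (Ann W' b (9 * s)) 2 (9 * s) (40 * (9 * s)) :=
      hc7 Y R W' hq (by linarith) hcol (r := 9 * s) (s := 9 * s / 10 ^ 4) (by
        rw [le_div_iff₀ (by norm_num)]
        linarith) (by
        rw [le_div_iff₀ (by norm_num)]
        linarith) (by
        rw [mul_div_cancel₀ _ (by norm_num)]) (by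
        rw [le_div_iff₀ (by norm_num)]
        linarith) b
    have hC2 : Col (Ann W' b (2 * s)) 2 (9 * s) (360 * s) := by
      refine hA.a4 (P' := Ann W' b (9 * s)) (fun x hx => ⟨hx.1, ?_⟩) le_rfl (by linarith) hC1
      have := hx.2
      linarith
    have hC3 : Col (SigOne R W' b s) 2 s (7 * s) := h7 Y R W' hq (by linarith) b s (by linarith) (by
      rw [le_div_iff₀ (by norm_num)]
      linarith)
    have hC4 : Col (Ann W' b (2 * s) ∪ SigOne R W' b s) 2 s (360 * s + 2 * (7 * s + s)) :=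
      hA.a1 (by linarith) hC2 hC3 (by linarith)
    have hx1 : ∀ x ∈ Ann W' a T, (b : ℝ) + R.ρ ≤ dist (pt W' 1) x := fun x hx => by
      have := hx.1
      linarith
    have h5' : ∀ x ∈ Ann W' a T,
        prj W W' (zed R W' b x) ∈ Ann W' b (2 * s) ∪ SigOne R W' b s ∧
        dist x (prj W W' (zed R W' b x)) ≤ 3 * T + 3 * R.ρ + 1 := by
      intro x hx
      obtain ⟨h8, h9, h10⟩ := h5 Y R W' hq (by linarith) b s x (by linarith) (hx1 x hx)
      refine ⟨h8, ?_⟩
      have h11 := hx.2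
      unfold exc at h10
      rw [dist_comm x]
      linarith
    have h4' : ∀ x ∈ Ann W' a T, ∀ y ∈ Ann W' a T, dist x y ≤ T →
        dist (prj W W' (zed R W' b x)) (prj W W' (zed R W' b y)) ≤ s := by
      intro x hx y hy hxy
      have h8 := hx.1
      have h9 := hy.1
      exact (h4 Y R W' hq hρ b x y (Nat.cast_nonneg b) (by linarith) (by linarith)).trans hs1
    have hC5 : Col (Ann W' a T) 2 T (360 * s + 2 * (7 * s + s) + (6 * T + 6 * R.ρ + 2)) := by
      refine hA.a3 (s' := s) (fun x => prj W W' (zed R W' b x)) (by linarith) (by linarith)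
        (fun x hx => (h5' x hx).1) h4' ?_ hC4
      intro x hx y hy
      have h8 := (h5' x hx).2
      have h9 := (h5' y hy).2
      have h10 := dist_triangle4 x (prj W W' (zed R W' b x)) (prj W W' (zed R W' b y)) y
      rw [dist_comm (prj W W' (zed R W' b y)) y] at h10
      show dist x y ≤ dist (prj W W' (zed R W' b x)) (prj W W' (zed R W' b y)) +
        (6 * T + 6 * R.ρ + 2)
      linarith
    exact hA.a4 subset_rfl le_rfl (by linarith) hC5

/-- **E9, the geometric theorem.** -/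
theorem geo : ToolA → S_e8 → S_c7 → S_geo := by
  intro hA h8 hc7 Γ _ W 𝒜 _ Y R W' hq σ hcol hσ hρ1 hρ2
  have hθ1 : 1 ≤ Y.θ := Y.hδ.trans Y.hθ
  have hθm : Y.θ ≤ max Y.θ σ := le_max_left _ _
  have hσm : σ ≤ max Y.θ σ := le_max_right _ _
  have hm : 10 ^ 16 * max Y.θ σ ≤ R.ρ := by
    rcases max_choice Y.θ σ with h | h <;> rw [h]
    · exact hρ1
    · exact hρ2
  set μ := max Y.θ σ with hμ
  have hbig : ∀ a T, 8 * R.ρ ≤ T → Col (Ann W' a T) 2 T (7 * T) :=
    h8 Y R W' hq (by linarith) (s := 10 ^ 8 * μ) hcol hσ (by linarith) (by linarith) (by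
      rw [le_div_iff₀ (by norm_num)]
      linarith)
  refine ⟨?_, fun T hT a => hbig a T hT⟩
  intro T hT a
  rcases le_or_gt T (R.ρ / 10 ^ 5) with h1 | h1
  · have h2 := hc7 Y R W' hq (by linarith) hcol (r := T) (s := 50 * μ) (by linarith) (by linarith)
      (by linarith) h1 a
    exact hA.a4 subset_rfl le_rfl (by linarith) h2
  · rw [div_lt_iff₀ (by norm_num)] at h1
    rcases le_or_gt T (8 * R.ρ) with h2 | h2
    · refine hA.a4 (P' := Ann W' a (8 * R.ρ)) (fun x hx => ⟨hx.1, ?_⟩) h2 ?_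
        (hbig a (8 * R.ρ) le_rfl)
      · have := hx.2
        linarith
      · linarith
    · exact hA.a4 subset_rfl le_rfl (by linarith) (hbig a T h2.le)

end Pool.Agent.H97.AN
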